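import Pool.Agent.Helper16K9.Adds.Equiv

set_option autoImplicit false

/-!
# Counting only the additions

Definitions: `Comp`, `MMAdds`, `rfVar`, `addMM` are in `Pool.Agent.Helper16K9.Adds.Defs`, `addCount`
in `Pool.Agent.Helper16K9.Adds.Main`, `Circuit`, `Circuit.size` in `Pool.Agent.H522R2.Circuit`,
`RankLE`, `trank`, `ComputesMM`, `sizeMM`, `Superlinear` in `Pool.Agent.W956.KF.Defs`.
-/

namespace Pool.Agent.Results.MP_e72dc0_lc.CountingAdditions

open Pool.Agent.H522R2 Pool.Agent.W956.KF Pool.Agent.Helper16K9.Fast Pool.Agent.Helper16K9.Adds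

/-- `addMM F m` is the least number of additions and subtractions by which the product of two generic
`m × m` matrices can be computed over the field `F` when constants, multiplications and divisions
are free; `trank F m m m` is the rank of the tensor of `m × m` matrix multiplication.

(1) `trank F m m m ≤ addMM F m + m ^ 2` for every infinite field `F` (for the school method, which
makes `m ^ 3 - m ^ 2` additions, the right hand side is `m ^ 3`). In particular every circuit which
computes the product has at least `trank F m m m - m ^ 2` addition gates.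
(2) Over algebraically closed fields `K` of characteristic 0 the same holds if roots are free, too:
let `L` be a field which contains `K`, and let the `2 m ^ 2` entries of two `m × m` matrices over `L`
be algebraically independent over `K`. If the product of the matrices can be computed from these
entries with `s` additions, when constants from `K`, multiplications, divisions and the extraction of
roots of all degrees in `L` are free, then `trank K m m m ≤ s + m ^ 2`.
(3) At least `(2 - o(1)) m ^ 2` additions are necessary, even if multiplications and divisions are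
free.
(4) There is a superlinear lower bound for `S_F(MM)` in the sense of the question if and only if
there is one for the number of additions. -/
theorem result :
    (∀ (F : Type) [Field F] [Infinite F] (m : ℕ), trank F m m m ≤ addMM F m + m ^ 2 ∧
      ∀ C : Circuit F ((Fin m × Fin m) ⊕ (Fin m × Fin m)), ComputesMM C →
        addMM F m ≤ addCount C ∧ addCount C ≤ C.size) ∧
    (∀ (K L : Type) [Field K] [IsAlgClosed K] [CharZero K] [Field L] [Algebra K L] (m s : ℕ)
      (z : (Fin m × Fin m) ⊕ (Fin m × Fin m) → L), AlgebraicIndependent K z →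
        MMAdds K {n | n ≠ 0} z s → trank K m m m ≤ s + m ^ 2) ∧
    (∀ ε : ℝ, 0 < ε → ∃ m₀ : ℕ, ∀ (F : Type) [Field F] [Infinite F] (m : ℕ), m₀ ≤ m →
      (2 - ε) * (m : ℝ) ^ 2 ≤ addMM F m) ∧
    (∀ (F : Type) [Field F] [Infinite F], Superlinear (sizeMM F) ↔
      ∃ α : ℝ, 1 < α ∧ ∃ c : ℝ, 0 < c ∧ ∀ m : ℕ, 2 ≤ m →
        c * (((m : ℝ) ^ 2) ^ α) ≤ addMM F m) := by
  refine ⟨fun F _ _ m => ⟨trank_le_addMM m, fun C hC => ⟨addMM_le C hC, addCount_le_size C⟩⟩,
    fun K L _ _ _ _ _ m s z hz h => trank_le_of_roots hz h, ?_, fun F _ _ => adds_iff⟩
  intro ε hε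
  obtain ⟨m₀, h₀⟩ := trank_eventually ε hε
  refine ⟨m₀, fun F _ _ m hm => ?_⟩
  have h1 := h₀ F m hm
  have h2 : (trank F m m m : ℝ) ≤ addMM F m + (m : ℝ) ^ 2 := by
    exact_mod_cast trank_le_addMM (F := F) m
  linarith

end Pool.Agent.Results.MP_e72dc0_lc.CountingAdditions
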