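import Pool.Agent.Helper51K9.NC.Easy

set_option autoImplicit false

/-!
# Matrix multiplication is the easiest nonlinear function of matrices

Definitions: all new ones are in `Pool.Agent.Helper51K9.NC.Defs`; `Aff` is in
`Pool.Agent.Y538.Net.Defs`, `Circuit`, `Circuit.size` in `Pool.Agent.H522R2.Circuit`, `RankLE`,
`trank`, `ComputesMM`, `sizeMM`, `Superlinear` in `Pool.Agent.W956.KF.Defs`.
-/

namespace Pool.Agent.Results.MP_e72dc0_lc.NoncommutativeFunctions

open Pool.Agent.H522R2 Pool.Agent.W956.KF Pool.Agent.Helper51K9.NC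

/-- `trank 𝕜 m m m` is the rank of the tensor of `m × m` matrix multiplication over `𝕜`.
`Gives k a b L F x`: near the point `x` the functions `F` are given by a network of `L` gates, each
of which applies any `k` times continuously differentiable function of `a` arguments with `b`
values; linear combinations are free.

(1) A noncommutative function (defined for tuples of matrices of all sizes on open sets, compatible
with direct sums and similarity; no continuity is assumed) is either affine,
`f(X) = α₀ + ∑ αᵢ Xᵢ`, and then no gates are needed at all, or there is a tuple `W` of `s × s`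
matrices such that each network of `L` gates which gives `f` near the direct sum of `m` copies of
`W` has `a * min a b * L ≥ trank 𝕜 m m m`, for every `m`.
(2) A scalar function of tuples of matrices of all sizes which is additive for direct sums and
invariant under similarity is either locally a quadratic trace polynomial, and then `r n ^ 2`
multiplications suffice for `n × n` matrices near each point, or there is `W` such that each network
which gives its one value near the direct sum of `m` copies of `W` has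
`3 * a ^ 2 * L ≥ trank 𝕜 m m m`.
(3) For every field `K` and every noncommutative polynomial `p`: either `p` is affine and the
entries of `p(X₁, …, X_r)`, with generic `m × m` matrices, have circuits of size `O(m ^ 2)`, or the
least size of such circuits has the order of `S_K(MM)` up to a linear term and a constant factor of
`m`, and it is superlinear if and only if `S_K(MM)` is superlinear.
(4) For `K = ℝ` or `ℂ` and the trace of `p(X₁, …, X_r)`: either it is a quadratic trace polynomial
and has circuits of size `O(m ^ 2)`, or the least size of its circuits is superlinear if and only if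
`S_K(MM)` is superlinear. -/
theorem result :
    (∀ (𝕜 : Type) [NontriviallyNormedField 𝕜] (r : ℕ) (Φ : NCFun 𝕜 r),
      (Φ.Affine ∧ ∀ (k : WithTop ℕ∞) (a b : ℕ) (ι : Type) [Fintype ι] [DecidableEq ι],
        ∀ X ∈ Φ.dom ι, Gives k a b 0 (Φ.entries ι) X) ∨
      ∃ (s : ℕ) (W : Fin r → Matrix (Fin s) (Fin s) 𝕜), W ∈ Φ.dom (Fin s) ∧
        ∀ m a b L : ℕ, Gives 2 a b L (Φ.entries (Fin m × Fin s)) (copies m W) →
          trank 𝕜 m m m ≤ a * min a b * L) ∧
    (∀ (𝕜 : Type) [RCLike 𝕜] (r : ℕ) (φ : NCInv 𝕜 r),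
      (φ.Quadratic ∧ ∀ (k : WithTop ℕ∞) (ι : Type) [Fintype ι] [DecidableEq ι],
        ∀ X ∈ φ.dom ι, Gives k 2 1 (r * Fintype.card ι ^ 2) (φ.one ι) X) ∨
      ∃ (s : ℕ) (W : Fin r → Matrix (Fin s) (Fin s) 𝕜), W ∈ φ.dom (Fin s) ∧
        ∀ m a b L : ℕ, Gives 3 a b L (φ.one (Fin m × Fin s)) (copies m W) →
          trank 𝕜 m m m ≤ 3 * a ^ 2 * L) ∧
    (∀ (K : Type) [Field K] (r : ℕ) (p : FreeAlgebra K (Fin r)),
      (AffinePoly p ∧ ∃ c : ℕ, ∀ m, sizeNC p m ≤ c * m ^ 2) ∨
      ((∃ c : ℕ, 0 < c ∧ (∀ m, sizeNC p m ≤ c * sizeMM K m) ∧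
          ∀ m n, c * m ≤ n → sizeMM K m ≤ sizeNC p n + m ^ 2) ∧
        (EvSuperlinear (sizeNC p) ↔ Superlinear (sizeMM K)))) ∧
    (∀ (𝕜 : Type) [RCLike 𝕜] (r : ℕ) (p : FreeAlgebra 𝕜 (Fin r)),
      (QuadraticTrace p ∧ ∃ c : ℕ, ∀ m, sizeTr p m ≤ c * m ^ 2) ∨
      ((∃ c : ℕ, 0 < c ∧ (∀ m, sizeTr p m ≤ c * sizeMM 𝕜 m) ∧
          ∀ m n, c * m ≤ n → trank 𝕜 m m m ≤ 12 * sizeTr p n) ∧
        (EvSuperlinear (sizeTr p) ↔ Superlinear (sizeMM 𝕜)))) := by
  refine ⟨fun 𝕜 _ r Φ => Φ.main, fun 𝕜 _ r φ => φ.main, fun K _ r p => ?_, fun 𝕜 _ r p => ?_⟩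
  · by_cases hp : AffinePoly p
    · exact Or.inl ⟨hp, sizeNC_affine hp⟩
    · exact Or.inr ⟨sizeNC_equiv hp, superlinear_NC hp⟩
  · by_cases hp : QuadraticTrace p
    · exact Or.inl ⟨hp, sizeTr_quadratic hp⟩
    · refine Or.inr ⟨?_, superlinear_Tr hp⟩
      obtain ⟨s, hs, h1⟩ := trank_le_sizeTr hp
      obtain ⟨c, hc, h2⟩ := sizeTr_upper p
      refine ⟨c + s, by omega, fun m => (h2 m).trans (Nat.mul_le_mul_right _ (Nat.le_add_right _ _)),
        fun m n hmn => h1 m n (le_trans (Nat.mul_le_mul_right _ (Nat.le_add_left _ _)) hmn)⟩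

end Pool.Agent.Results.MP_e72dc0_lc.NoncommutativeFunctions
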