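import Pool.Agent.Helper16K9.TH.Fin2

set_option autoImplicit false

/-!
# Linear spaces of matrices with easy arithmetic: sharp bounds for the dimension

Definitions: `RF`, `ObtD`, `inputsD`, `costD`, `genD`, `squareD`, `pairMatD`, `pairD`, `invD`,
`cubeD`, `detD` are in `Pool.Agent.Helper16K9.TH.Df2`, `gen`, `comb` in
`Pool.Agent.Helper16K9.TH.Df`, `LikeMM` in `Pool.Agent.Helper16K9.TH.Fin`; `trank`, `omega`,
`growth`, `Superlinear`, `sizeMM` in `Pool.Agent.W956.KF.Defs`, `Circuit` in
`Pool.Agent.H522R2.Circuit`.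
-/

namespace Pool.Agent.Results.MP_e72dc0_lc.SpacesOfMatrices

open Matrix Pool.Agent.H522R2 Pool.Agent.W956.KF Pool.Agent.Helper16K9.TH

/-- `costD P` is the least number of multiplications and divisions with which the rational functions
in `P` can be computed when linear combinations are free. Let `B` be a basis of a `d`-dimensional
linear space `W` of `m × m` matrices over an infinite field `F`, and let `X`, `Y` be independent
generic elements of the affine spaces `A + W` and `A' + W`.

(1) If `2 d > m ^ 2 + 6 k m`, then the determinant vanishes on all of `A + W` or the cost of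
`det X` is at least `trank F k k k / 6`; the same bound holds for `trace (X ^ 3)` if `3 ≠ 0` in `F`.
(2) If `4 d > m ^ 2 + 16 k m`, then the entries of `X ^ 2`, those of `r X Y + t Y X` for
`(r, t) ≠ (0, 0)`, and, unless the determinant vanishes on `A + W`, those of the inverse of `X` cost
at least `trank F k k k / 2`.
(3) For families of affine spaces of dimension at least `(1 / 2 + ε) m ^ 2`, the trace of `X ^ 3`
and the determinant (unless it vanishes identically) grow like matrix multiplication: the exponent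
is `ω`, and they are superlinear if and only if the circuit size of matrix multiplication is.
(4) For families of affine spaces of dimension at least `(1 / 4 + ε) m ^ 2`, the square, each
`r X Y + t Y X` (for instance the product and the commutator), and the inverse (unless the
determinant vanishes identically) grow like matrix multiplication.
(5) The constants are optimal: there are spaces of dimension `m (m + 1) / 2` which contain an
invertible matrix and on which the trace of the cube and the determinant cost at most `2 m` and `m`,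
spaces of dimension `⌊m ^ 2 / 4⌋` on which all products are 0, and spaces of dimension
`⌊m ^ 2 / 4⌋ + 1` which contain an invertible matrix and on which the inverse costs at most
`m ^ 2 / 4 + 2`.
(6) Circuits for polynomials use at least as many nonscalar multiplications as the cost. -/
theorem result :
    (∀ (F : Type) [Field F] [Infinite F] (m d k : ℕ) (A : Matrix (Fin m) (Fin m) F)
      (B : Fin d → Matrix (Fin m) (Fin m) F), LinearIndependent F B →
      m ^ 2 + 6 * k * m < 2 * d →
      ((∃ x, (A + comb B x).det ≠ 0) → trank F k k k ≤ 6 * costD {detD A B}) ∧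
      ((3 : F) ≠ 0 → trank F k k k ≤ 6 * costD {cubeD A B})) ∧
    (∀ (F : Type) [Field F] [Infinite F] (m d k : ℕ) (A A' : Matrix (Fin m) (Fin m) F)
      (B : Fin d → Matrix (Fin m) (Fin m) F), LinearIndependent F B →
      m ^ 2 + 16 * k * m < 4 * d →
      trank F k k k ≤ 2 * costD (squareD A B) ∧
      (∀ r t : F, r ≠ 0 ∨ t ≠ 0 → trank F k k k ≤ 2 * costD (pairD r t A A' B)) ∧
      ((∃ x, (A + comb B x).det ≠ 0) → trank F k k k ≤ 2 * costD (invD A B))) ∧
    (∀ (F : Type) [Field F] [Infinite F] (ε : ℝ) (m₀ : ℕ) (d : ℕ → ℕ)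
      (A : (m : ℕ) → Matrix (Fin m) (Fin m) F)
      (B : (m : ℕ) → Fin (d m) → Matrix (Fin m) (Fin m) F), 0 < ε →
      (∀ m, LinearIndependent F (B m)) →
      (∀ m, m₀ ≤ m → (1 / 2 + ε) * (m : ℝ) ^ 2 ≤ d m) →
      ((3 : F) ≠ 0 → LikeMM F fun m => costD {cubeD (A m) (B m)}) ∧
      ((∀ m, m₀ ≤ m → ∃ x, (A m + comb (B m) x).det ≠ 0) →
        LikeMM F fun m => costD {detD (A m) (B m)})) ∧
    (∀ (F : Type) [Field F] [Infinite F] (ε : ℝ) (m₀ : ℕ) (d : ℕ → ℕ)
      (A A' : (m : ℕ) → Matrix (Fin m) (Fin m) F)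
      (B : (m : ℕ) → Fin (d m) → Matrix (Fin m) (Fin m) F), 0 < ε →
      (∀ m, LinearIndependent F (B m)) →
      (∀ m, m₀ ≤ m → (1 / 4 + ε) * (m : ℝ) ^ 2 ≤ d m) →
      (LikeMM F fun m => costD (squareD (A m) (B m))) ∧
      (∀ r t : F, r ≠ 0 ∨ t ≠ 0 → LikeMM F fun m => costD (pairD r t (A m) (A' m) (B m))) ∧
      ((∀ m, m₀ ≤ m → ∃ x, (A m + comb (B m) x).det ≠ 0) →
        LikeMM F fun m => costD (invD (A m) (B m)))) ∧
    (∀ (F : Type) [Field F] (m : ℕ),
      (∃ B : Fin (m * (m + 1) / 2) → Matrix (Fin m) (Fin m) F, LinearIndependent F B ∧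
        costD {cubeD 0 B} ≤ 2 * m ∧ costD {detD 0 B} ≤ m ∧ ∃ x, (comb B x).det ≠ 0) ∧
      (∃ B : Fin (m ^ 2 / 4) → Matrix (Fin m) (Fin m) F, LinearIndependent F B ∧
        ∀ k l, B k * B l = 0) ∧
      (1 ≤ m → ∃ B : Fin (m ^ 2 / 4 + 1) → Matrix (Fin m) (Fin m) F, LinearIndependent F B ∧
        costD (invD 0 B) ≤ m ^ 2 / 4 + 2 ∧ ∃ x, (comb B x).det ≠ 0)) ∧
    (∀ (F : Type) [Field F] (d : ℕ) (C : Circuit F (Fin d)) (P : Set (MvPolynomial (Fin d) F)),
      P ⊆ Set.range C.poly →
        costD ((algebraMap (MvPolynomial (Fin d) F) (RF F d)) '' P) ≤ C.nonscalarCount) := by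
  refine ⟨fun F _ _ m d k A B hB hd => ⟨fun hx => bound_detD bri lif A hB hd (detD_ne A B hx),
      fun h3 => bound_cubeD bri lif h3 A hB hd⟩,
    fun F _ _ m d k A A' B hB hd => ⟨bound_sqD bri lif A hB hd,
      fun r t hrt => bound_pairD bri lif hrt A A' hB hd,
      fun hx => bound_invD lif inv A hB hd (detD_ne A B hx)⟩,
    fun F _ _ ε m₀ d A B hε hB hd => ⟨fun h3 => ?_, fun hx => ?_⟩,
    fun F _ _ ε m₀ d A A' B hε hB hd => ⟨?_, fun r t hrt => ?_, fun hx => ?_⟩,
    fun F _ m => ⟨?_, block_example F m, exi F m⟩, fun F _ d C P hP => ?_⟩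
  · refine likeMM' (δ := ε / 3) (K := 6) (m₀ := m₀) (by positivity) (fun m k hm hk =>
      bound_cubeD bri lif h3 (A m) (hB m) (half_dim hε (hd m hm) hk))
      (upper_of_trank (C := 1) fun m => ?_)
    rw [one_mul]
    exact (cost_cubeD_le' (A m) (B m)).trans (ups F m (d m) (A m) (B m)).2
  · exact likeMM' (δ := ε / 3) (K := 6) (m₀ := m₀) (by positivity) (fun m k hm hk =>
      bound_detD bri lif (A m) (hB m) (half_dim hε (hd m hm) hk) (detD_ne _ _ (hx m hm)))
      (upper_of_Iv fun m => (cost_inv_det (A m) (B m)).2)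
  · refine likeMM' (δ := ε / 4) (K := 2) (m₀ := m₀) (by positivity) (fun m k hm hk =>
      bound_sqD bri lif (A m) (hB m) (quarter_dim hε (hd m hm) hk))
      (upper_of_trank (C := 1) fun m => ?_)
    rw [one_mul]
    exact (cost_squareD_le (A m) (B m)).trans (Nat.le_add_right _ _)
  · exact likeMM' (δ := ε / 4) (K := 2) (m₀ := m₀) (by positivity) (fun m k hm hk =>
      bound_pairD bri lif hrt (A m) (A' m) (hB m) (quarter_dim hε (hd m hm) hk))
      (upper_of_trank (C := 2) fun m => (cost_pairD_le r t (A m) (A' m) (B m)).trans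
        (Nat.mul_le_mul_left _ (Nat.le_add_right _ _)))
  · exact likeMM' (δ := ε / 4) (K := 2) (m₀ := m₀) (by positivity) (fun m k hm hk =>
      bound_invD lif inv (A m) (hB m) (quarter_dim hε (hd m hm) hk) (detD_ne _ _ (hx m hm)))
      (upper_of_Iv fun m => (cost_inv_det (A m) (B m)).1)
  · obtain ⟨B, h1, h2, h3, h4⟩ := tri F m
    exact ⟨B, h1, (cost_cubeD_le' 0 B).trans h2, (cost_detD_le' 0 B).trans h3, h4⟩
  · exact (cmp F d P ((Set.finite_range C.poly).subset hP)).trans (cir F (Fin d) C P hP)

end Pool.Agent.Results.MP_e72dc0_lc.SpacesOfMatrices
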