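import Pool.Agent.Helper16K9.Ver.Final

set_option autoImplicit false

/-!
# The nondeterministic complexity of verifying matrix products

Definitions: all new ones are in `Pool.Agent.Helper16K9.Ver.Defs`; `trank`, `omega`, `sizeMM`,
`growth`, `Superlinear` are in `Pool.Agent.W956.KF.Defs`; `AD` is in `Pool.Agent.H826R3.SM.Rank`.
-/

namespace Pool.Agent.Results.MP_e72dc0_lc.VerifyingProducts

open Pool.Agent.W956.KF Pool.Agent.Helper16K9 Pool.Agent.Helper16K9.Ver

/-- A nondeterministic tree over `ℂ` multiplies and divides, guesses complex numbers and tests for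
equality; affine combinations, guesses and tests are free. `ncost S` is the least number of
multiplications and divisions with which such a tree accepts exactly the elements of `S`.
`Verifies f t L`: for all `x` outside a hypersurface the tree `t` accepts `(x, f x)`, with at most
`L` multiplications and divisions, and accepts no pair `(x, y)` with `y ≠ f x`; `gcost f` is the
least such `L`. `trank ℂ N N N` and `borderRank N` are the rank and the border rank of the tensor of
`N × N` matrix multiplication.

(1) Verifying `A * B = C` for generic `A`, `B` needs at least `borderRank N / 2` multiplications and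
divisions, verifying `trace (A * B * C) = d` for generic `A`, `B`, `C` at least `borderRank N / 6`,
and verifying `det A = d` for generic `A` at least `borderRank (N / 3) / 6`.
(2) The border rank is between `N ^ ω` and the rank.
(3) Without guesses `trank ℂ N N N` multiplications suffice to decide whether `A * B = C`.
(4) The same bounds, up to a change of `N` and constant factors, hold for the nondeterministic
complexity of the following problems: `A * B = C`, `A * B = 0`, `A * B = 1`, `A * B = B * A`,
`A * A = 0`, `A * A = A`, `Aᵀ * A = 1`, `rank A ≤ r`, `trace (A * B * C) = d`,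
`trace (A * A * A) = 0`, the weighted number of triangles of a complete graph is zero, `det A = d`,
`det A = 1`, the given polynomial is the characteristic polynomial of `A`.
(5) So each of them grows like matrix multiplication: its exponent is `ω`, and it is superlinear as
a function of `n = N ^ 2` if and only if the circuit size of matrix multiplication is.
(6) In contrast, `A * B ≠ C` has nondeterministic complexity at most `N`, and `det A = 0` at most
`N ^ 2`. -/
theorem result :
    ((∀ (N : ℕ) (t : Ver.Tree (((Fin N × Fin N) ⊕ (Fin N × Fin N)) ⊕ (Fin N × Fin N)))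
        (L : ℕ),
        Verifies (productFun N) t L → borderRank N ≤ 2 * L) ∧
      (∀ (N : ℕ)
        (t : Ver.Tree ((((Fin N × Fin N) ⊕ (Fin N × Fin N)) ⊕ (Fin N × Fin N)) ⊕ Unit)) (L : ℕ), Verifies (traceFun N) t L → borderRank N ≤ 6 * L) ∧
      (∀ (N : ℕ) (t : Ver.Tree ((Fin N × Fin N) ⊕ Unit)) (L : ℕ),
        Verifies (detFun N) t L → borderRank (N / 3) ≤ 6 * L)) ∧
    (∀ N : ℕ, 1 ≤ N → (N : ℝ) ^ omega ℂ ≤ borderRank N ∧ borderRank N ≤ trank ℂ N N N) ∧
    (∀ N : ℕ, ∃ t, t.Det ∧ Decides (productSet N) t (trank ℂ N N N)) ∧
    (∀ N : ℕ,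
      Costs (productSet N) (borderRank N) 2 (trank ℂ N N N) ∧
      Costs (zeroProductSet N) (borderRank (N / 4)) 2 (trank ℂ N N N) ∧
      Costs (inverseSet N) (borderRank (N / 4)) 2 (trank ℂ N N N) ∧
      Costs (commutingSet N) (borderRank (N / 4)) 2 (trank ℂ (2 * N) (2 * N) (2 * N)) ∧
      Costs (squareZeroSet N) (borderRank (N / 4)) 2 (trank ℂ N N N) ∧
      Costs (idempotentSet N) (borderRank (N / 4)) 2 (trank ℂ N N N) ∧
      Costs (orthogonalSet N) (borderRank (N / 5)) 2 (trank ℂ N N N) ∧
      (∀ r, Costs (rankSet N r) (borderRank (min r (N - r))) 2 (trank ℂ N N N)) ∧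
      Costs (traceSet N) (borderRank N) 6 (trank ℂ N N N + N ^ 2) ∧
      Costs (cubeTraceSet N) (borderRank (N / 3 - 1)) 6 (trank ℂ N N N + N ^ 2) ∧
      Costs (triangleSet N) (borderRank (N / 3 - 1)) 6 (trank ℂ N N N + N ^ 2) ∧
      Costs (detSet N) (borderRank (N / 3)) 6 (3 * trank ℂ N N N + N) ∧
      Costs (slSet N) (borderRank ((N - 1) / 3) - 6) 6 (3 * trank ℂ N N N + N) ∧
      Costs (charpolySet N) (borderRank (N / 3)) 6 (3 * trank ℂ N N N + N ^ 2 + N)) ∧
    (∀ f ∈ ([fun N => gcost (productFun N), fun N => ncost (productSet N),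
      fun N => ncost (zeroProductSet N), fun N => ncost (inverseSet N),
      fun N => ncost (commutingSet N), fun N => ncost (squareZeroSet N),
      fun N => ncost (idempotentSet N), fun N => ncost (orthogonalSet N),
      fun N => ncost (rankSet N (N / 2)), fun N => gcost (traceFun N),
      fun N => ncost (traceSet N), fun N => ncost (cubeTraceSet N),
      fun N => ncost (triangleSet N), fun N => gcost (detFun N), fun N => ncost (detSet N),
      fun N => ncost (slSet N), fun N => ncost (charpolySet N)] : List (ℕ → ℕ)), LikeMM f) ∧
    (∀ N : ℕ, Costs (productSet N)ᶜ 0 1 N ∧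
      Costs {x : Fin N × Fin N → ℂ | (mat x).det = 0} 0 1 (N ^ 2)) :=
  ⟨⟨fun _ t L h => product_bound t L h, fun _ t L h => trace_bound t L h,
      fun _ t L h => det_bound t L h⟩,
    fun N hN => ⟨omega_eq (K := ℂ) ▸ br_lower N hN, borderRank_le_trank N⟩,
    exists_prodTree, costs_all, grow_all,
    fun N => ⟨costs_of (fun _ _ _ => Nat.zero_le _) (up_compl N),
      costs_of (fun _ _ _ => Nat.zero_le _) (up_singular N)⟩⟩

end Pool.Agent.Results.MP_e72dc0_lc.VerifyingProducts
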